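import Mathlib
import Pool.Agent.Helper292.ForceCH
import Pool.Agent.V11242.MT.Main

/-!
# Consistency of a separable Fréchet–Urysohn `C_p(X)` which is not hereditarily separable
-/

set_option autoImplicit false

namespace Pool.Agent.Results.MP_dfc365_gt.IsolatedTower

open Pool.Agent.V11242.MT Pool.Agent.Helper292.ForceCH

/-- (1) There is a forcing notion all of whose conditions force that `ω₁` is preserved and that the
continuum hypothesis holds.
(2) If the continuum hypothesis holds, then there is a Tychonoff space `X` such that `C_p(X)` is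
separable and Fréchet–Urysohn but not hereditarily separable. -/
theorem result :
    (∃ (P : Type) (_ : Preorder P), Nonempty P ∧
      ∀ p : P, p ∈ OmegaOnePreserved P ∧ p ∈ CHHolds P) ∧
    (Cardinal.continuum.{0} = Cardinal.aleph 1 →
      ∃ (X : Type) (_ : TopologicalSpace X), T35Space X ∧
        TopologicalSpace.SeparableSpace (Cp X) ∧ IsFU (Cp X) ∧ ¬ IsHerSep (Cp X)) := by
  refine ⟨?_, main⟩
  obtain ⟨P, i, h1, h2⟩ := exists_forcing
  exact ⟨P, i, h1, fun p => ⟨(h2 p).1, (h2 p).2.2⟩⟩

end Pool.Agent.Results.MP_dfc365_gt.IsolatedTower
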